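import Pool.Agent.Helper29.RD.Pat

/-!
# Counting the sign choices of a shadow with many copies of the pattern
-/

set_option autoImplicit false

namespace Pool.Agent.Helper29.RD

open Pool.Agent.Helper67.KZ PowerSeries

section blocks

variable {n κ M : ℕ}

/-- a copy of the pattern with signs -/
def blk (κ : ℕ) (p : Fin n × Fin n) (ε : Fin (plen κ) → Bool) : Word n :=
  List.zip (pat p.1 p.2 κ) (List.ofFn ε)

/-- the blocks, each followed by a fixed word -/
def blocks (p : Fin M → Fin n × Fin n) (c : Fin M → Word n) (ω : Fin M → Fin (plen κ) → Bool) :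
    List (Word n) :=
  List.ofFn fun t => blk κ (p t) (ω t) ++ c t

/-- the word given by the blocks -/
def W (p : Fin M → Fin n × Fin n) (c : Fin M → Word n) (ω : Fin M → Fin (plen κ) → Bool) :
    Word n :=
  (blocks p c ω).flatten

/-- the part before the block `i` -/
def pre (p : Fin M → Fin n × Fin n) (c : Fin M → Word n) (ω : Fin M → Fin (plen κ) → Bool)
    (i : Fin M) : Word n :=
  ((blocks p c ω).take i).flatten

/-- the part after the block `i` -/
def post (p : Fin M → Fin n × Fin n) (c : Fin M → Word n) (ω : Fin M → Fin (plen κ) → Bool)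
    (i : Fin M) : Word n :=
  c i ++ ((blocks p c ω).drop (i + 1)).flatten

variable (p : Fin M → Fin n × Fin n) (c : Fin M → Word n) (ω : Fin M → Fin (plen κ) → Bool)

lemma blocks_length : (blocks p c ω).length = M := by
  simp [blocks]

lemma blocks_update (i : Fin M) (x : Fin (plen κ) → Bool) :
    blocks p c (Function.update ω i x) = (blocks p c ω).set i (blk κ (p i) x ++ c i) := by
  apply List.ext_getElem
  · simp [blocks]
  · intro k h1 h2
    rw [List.getElem_set]
    simp only [blocks, List.getElem_ofFn]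
    by_cases hk : (i : ℕ) = k
    · rw [if_pos hk]
      have : (⟨k, by simpa [blocks] using h1⟩ : Fin M) = i := Fin.ext hk.symm
      rw [this, Function.update_self]
    · rw [if_neg hk, Function.update_of_ne]
      intro e
      exact hk (by rw [← e])

lemma W_update (i : Fin M) (x : Fin (plen κ) → Bool) :
    W p c (Function.update ω i x) = pre p c ω i ++ blk κ (p i) x ++ post p c ω i := by
  rw [W, blocks_update, List.set_eq_take_append_cons_drop,
    if_pos (by rw [blocks_length]; exact i.2)]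
  simp [pre, post]

lemma perm_flat (l : List (Word n)) : perm l.flatten = (l.map perm).prod := by
  induction l with
  | nil => simp [perm]
  | cons a l ih => rw [List.flatten_cons, perm_append, ih, List.map_cons, List.prod_cons]

lemma perm_pre (i : Fin M) :
    perm (pre p c ω i) = (((blocks p c ω).map perm).take i).prod := by
  rw [pre, perm_flat, List.map_take]

lemma perm_post (i : Fin M) :
    perm (post p c ω i) = perm (c i) * (((blocks p c ω).map perm).drop (i + 1)).prod := by
  rw [post, perm_append, perm_flat, List.map_drop]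

lemma blocks_perm_update (i : Fin M) (a b : Fin (plen κ) → Bool)
    (h : perm (blk κ (p i) a) = perm (blk κ (p i) b)) :
    (blocks p c (Function.update ω i a)).map perm =
      (blocks p c (Function.update ω i b)).map perm := by
  rw [blocks_update, blocks_update, List.map_set, List.map_set, perm_append, perm_append, h]

lemma update_self_eq (i : Fin M) (x : Fin (plen κ) → Bool) (h : ω i = x) :
    W p c ω = pre p c ω i ++ blk κ (p i) x ++ post p c ω i := by
  rw [← W_update]
  congr 1
  rw [← h, Function.update_eq_self]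

lemma pre_update (i : Fin M) (x : Fin (plen κ) → Bool) :
    pre p c (Function.update ω i x) i = pre p c ω i := by
  rw [pre, pre, blocks_update, List.take_set_of_le le_rfl]

lemma post_update (i : Fin M) (x : Fin (plen κ) → Bool) :
    post p c (Function.update ω i x) i = post p c ω i := by
  rw [post, post, blocks_update, List.drop_set_of_lt (Nat.lt_succ_self _)]

end blocks

open Classical in
/-- Anti-concentration of the coefficient of `X ^ (2 k + 2)` on the blocks. -/
lemma swap_bound {n κ : ℕ} (k d : ℕ) (hκ : 2 * k + 1 + d = κ)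
    (a b : Fin (plen κ) → Bool) (ha : List.ofFn a = es (2 * k + 1) d)
    (hb : List.ofFn b = alt (hlen κ)) (M : ℕ) (p : Fin M → Fin n × Fin n)
    (hp : ∀ t, (p t).1.val + 1 = (p t).2.val ∨ (p t).2.val + 1 = (p t).1.val)
    (c : Fin M → Word n) (u v : Word n) (t : ℕ → ℚ) :
    (((Finset.univ.filter fun ω : Fin M → Fin (plen κ) → Bool =>
      (IsKnot (u ++ W p c ω ++ v) ∧
        ∀ r < k, coeff (2 * r + 2) (T (u ++ W p c ω ++ v)) = t r) ∧
        coeff (2 * k + 2) (T (u ++ W p c ω ++ v)) = t k).card : ℕ) : ℝ) ≤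
      ∑ ω ∈ Finset.univ.filter (fun ω : Fin M → Fin (plen κ) → Bool =>
        (IsKnot (u ++ W p c ω ++ v) ∧
          ∀ r < k, coeff (2 * r + 2) (T (u ++ W p c ω ++ v)) = t r)),
        1 / Real.sqrt ((marked a b ω : ℝ) + 1) := by
  subst hκ
  have hab : a ≠ b := by
    intro e
    apply es_ne (2 * k + 1) d
    rw [← ha, ← hb, e]
  have hra : ∀ q : Fin n × Fin n, rho (blk (2 * k + 1 + d) q a) = rho (cw q.1 q.2 (2 * k + 1)) ∧
      perm (blk (2 * k + 1 + d) q a) = 1 := by
    intro q
    rw [blk, ha]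
    exact es_spec q.1 q.2 (2 * k + 1) d
  have hrb : ∀ q : Fin n × Fin n, rho (blk (2 * k + 1 + d) q b) = 1 ∧
      perm (blk (2 * k + 1 + d) q b) = 1 := by
    intro q
    rw [blk, hb]
    exact tr_spec q.1 q.2 (2 * k + 1 + d)
  -- the two words
  have hTa : ∀ (ω : Fin M → Fin (plen (2 * k + 1 + d)) → Bool) (l : Fin M),
      T (u ++ W p c (Function.update ω l a) ++ v) =
        T ((u ++ pre p c ω l) ++ cw (p l).1 (p l).2 (2 * k + 1) ++ (post p c ω l ++ v)) := by
    intro ω l
    rw [← T_congr _ _ _ _ (hra (p l)).1, W_update]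
    simp
  have hTb : ∀ (ω : Fin M → Fin (plen (2 * k + 1 + d)) → Bool) (l : Fin M),
      T (u ++ W p c (Function.update ω l b) ++ v) =
        T ((u ++ pre p c ω l) ++ (post p c ω l ++ v)) := by
    intro ω l
    have h1 := T_congr (u ++ pre p c ω l) (post p c ω l ++ v) (blk (2 * k + 1 + d) (p l) b) []
      (by rw [(hrb (p l)).1, rho_nil])
    rw [List.append_nil] at h1
    rw [← h1, W_update]
    simp
  have hknot : ∀ (ω : Fin M → Fin (plen (2 * k + 1 + d)) → Bool) (l : Fin M),
      perm (u ++ W p c (Function.update ω l a) ++ v) =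
        perm (u ++ W p c (Function.update ω l b) ++ v) := by
    intro ω l
    rw [W_update, W_update]
    simp only [perm_append, (hra (p l)).2, (hrb (p l)).2]
  refine anti_conc a b hab M
    (fun ω => IsKnot (u ++ W p c ω ++ v) ∧
      ∀ r < k, coeff (2 * r + 2) (T (u ++ W p c ω ++ v)) = t r)
    (fun ω => coeff (2 * k + 2) (T (u ++ W p c ω ++ v)))
    (fun ω l => 4 * 16 ^ k * ((Fix (perm (u ++ pre p c ω l) * (tau (p l).1 * tau (p l).2) *
      perm (post p c ω l ++ v)) : ℚ) - Fix (perm (u ++ pre p c ω l) *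
      (tau (p l).2 * tau (p l).1) * perm (post p c ω l ++ v)))) ?_ ?_ ?_ ?_ (t k)
  · intro ω l
    have e1 : IsKnot (u ++ W p c (Function.update ω l a) ++ v) ↔
        IsKnot (u ++ W p c (Function.update ω l b) ++ v) := by
      unfold IsKnot; rw [hknot]
    have e2 : ∀ r < k, coeff (2 * r + 2) (T (u ++ W p c (Function.update ω l a) ++ v)) =
        coeff (2 * r + 2) (T (u ++ W p c (Function.update ω l b) ++ v)) := by
      intro r hr
      rw [hTb, hTa]
      exact (T_diff (p l).1 (p l).2 k _ _).1 _ (by omega)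
    constructor
    · rintro ⟨h1, h2⟩
      exact ⟨e1.mp h1, fun r hr => by rw [← e2 r hr]; exact h2 r hr⟩
    · rintro ⟨h1, h2⟩
      exact ⟨e1.mpr h1, fun r hr => by rw [e2 r hr]; exact h2 r hr⟩
  · intro ω l l'
    have e := blocks_perm_update p c ω l a b (by rw [(hra (p l)).2, (hrb (p l)).2])
    simp only [perm_append, perm_pre, perm_post, e]
  · intro ω l
    rw [hTb, hTa, pre_update, post_update]
    exact (T_diff (p l).1 (p l).2 k _ _).2
  · intro ω l hG hl
    have hq : perm (u ++ pre p c ω l) * perm (post p c ω l ++ v) = perm (u ++ W p c ω ++ v) := by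
      rcases hl with hl | hl
      · rw [update_self_eq p c ω l a hl]
        simp only [perm_append, (hra (p l)).2, mul_one, mul_assoc]
      · rw [update_self_eq p c ω l b hl]
        simp only [perm_append, (hrb (p l)).2, mul_one, mul_assoc]
    have hk : ∀ a b : Fin (n + 1), (perm (u ++ pre p c ω l) *
        perm (post p c ω l ++ v)).SameCycle a b := by
      rw [hq]
      exact hG.1
    refine mul_ne_zero (by positivity) ?_
    rcases hp l with h | h
    · exact fix_diff (p l).1 (p l).2 h _ _ hk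
    · have h1 := fix_diff (p l).2 (p l).1 h _ _ hk
      rw [← neg_sub]
      exact neg_ne_zero.2 h1

lemma W_append {n κ M1 M2 : ℕ} (p : Fin (M1 + M2) → Fin n × Fin n)
    (c : Fin (M1 + M2) → Word n) (ω1 : Fin M1 → Fin (plen κ) → Bool)
    (ω2 : Fin M2 → Fin (plen κ) → Bool) :
    W p c (Fin.append ω1 ω2) =
      W (fun t => p (Fin.castAdd M2 t)) (fun t => c (Fin.castAdd M2 t)) ω1 ++
        W (fun t => p (Fin.natAdd M1 t)) (fun t => c (Fin.natAdd M1 t)) ω2 := by
  unfold W blocks
  rw [← List.flatten_append, List.ofFn_add]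
  congr 2
  · refine congrArg List.ofFn (funext fun t => ?_)
    show blk κ (p (Fin.castAdd M2 t)) (Fin.append ω1 ω2 (Fin.castAdd M2 t)) ++
      c (Fin.castAdd M2 t) = _
    rw [Fin.append_left]
  · refine congrArg List.ofFn (funext fun t => ?_)
    rw [Fin.append_right]

open Classical in
theorem core (κ k : ℕ) (hk : 2 * k ≤ κ + 1) : ∃ C : ℝ, 0 ≤ C ∧ ∀ (n M : ℕ), 1 ≤ M →
    ∀ (p : Fin M → Fin n × Fin n),
    (∀ t, (p t).1.val + 1 = (p t).2.val ∨ (p t).2.val + 1 = (p t).1.val) →
    ∀ (c : Fin M → Word n) (u v : Word n) (t : ℕ → ℚ),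
    (((Finset.univ.filter fun ω : Fin M → Fin (plen κ) → Bool =>
      IsKnot (u ++ W p c ω ++ v) ∧
        ∀ r < k, coeff (2 * r + 2) (T (u ++ W p c ω ++ v)) = t r).card : ℕ) : ℝ) *
      (Real.sqrt M) ^ k ≤ C * ((2 : ℝ) ^ plen κ) ^ M := by
  induction k with
  | zero =>
    refine ⟨1, zero_le_one, ?_⟩
    intro n M _ p _ c u v t
    rw [pow_zero, mul_one, one_mul]
    have h2 : Fintype.card (Fin M → Fin (plen κ) → Bool) = (2 ^ plen κ) ^ M := by
      simp
    refine le_trans (Nat.cast_le.mpr (Finset.card_le_univ _)) ?_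
    rw [h2]
    push_cast
    exact le_rfl
  | succ k ih =>
    obtain ⟨C, hC0, hC⟩ := ih (by omega)
    obtain ⟨d, hd⟩ : ∃ d, 2 * k + 1 + d = κ := ⟨κ - (2 * k + 1), by omega⟩
    have hfun : ∀ l : List Bool, l.length = plen κ → ∃ a : Fin (plen κ) → Bool,
        List.ofFn a = l := by
      intro l hl
      rw [← hl]
      exact ⟨l.get, List.ofFn_get l⟩
    obtain ⟨a, ha⟩ := hfun (es (2 * k + 1) d) (by rw [es_length, hd])
    obtain ⟨b, hb⟩ := hfun (alt (hlen κ)) (by rw [alt_length, plen_eq])
    have hab : a ≠ b := by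
      intro e
      apply es_ne (2 * k + 1) d
      rw [hd, ← ha, ← hb, e]
    set Q : ℝ := (2 : ℝ) ^ plen κ with hQ
    have hQ0 : 0 < Q := by positivity
    refine ⟨C * (Real.sqrt 2) ^ k * Real.sqrt (2 * Q), by positivity, ?_⟩
    intro n M hM p hp c u v t
    -- the split
    obtain ⟨M1, M2, hMM, hM1, hM2⟩ : ∃ M1 M2 : ℕ, M = M1 + M2 ∧ M ≤ 2 * M1 ∧
        M ≤ 2 * (M2 + 1) := ⟨M - M / 2, M / 2, by omega, by omega, by omega⟩
    subst hMM
    have hM11 : 1 ≤ M1 := by omega
    -- the two halves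
    obtain ⟨W1, hW1⟩ : ∃ W1 : (Fin M1 → Fin (plen κ) → Bool) → Word n, W1 =
      W (fun t => p (Fin.castAdd M2 t)) (fun t => c (Fin.castAdd M2 t)) := ⟨_, rfl⟩
    obtain ⟨W2, hW2⟩ : ∃ W2 : (Fin M2 → Fin (plen κ) → Bool) → Word n, W2 =
      W (fun t => p (Fin.natAdd M1 t)) (fun t => c (Fin.natAdd M1 t)) := ⟨_, rfl⟩
    obtain ⟨P, hP⟩ : ∃ P : (Fin M1 → Fin (plen κ) → Bool) → (Fin M2 → Fin (plen κ) → Bool) →
      Prop, P = fun w ω => IsKnot (u ++ (W1 w ++ W2 ω) ++ v) ∧
        ∀ r < k, coeff (2 * r + 2) (T (u ++ (W1 w ++ W2 ω) ++ v)) = t r := ⟨_, rfl⟩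
    have hcount : (((Finset.univ.filter fun w : Fin (M1 + M2) → Fin (plen κ) → Bool =>
        IsKnot (u ++ W p c w ++ v) ∧
          ∀ r < k + 1, coeff (2 * r + 2) (T (u ++ W p c w ++ v)) = t r).card : ℕ) : ℝ) =
        ∑ w : Fin M1 → Fin (plen κ) → Bool, (((Finset.univ.filter fun ω :
          Fin M2 → Fin (plen κ) → Bool => P w ω ∧
            coeff (2 * k + 2) (T (u ++ (W1 w ++ W2 ω) ++ v)) = t k).card : ℕ) : ℝ) := by
      simp only [Finset.card_filter]
      push_cast
      rw [← Fintype.sum_prod_type' (f := fun (w : Fin M1 → Fin (plen κ) → Bool)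
        (ω : Fin M2 → Fin (plen κ) → Bool) => if P w ω ∧
            coeff (2 * k + 2) (T (u ++ (W1 w ++ W2 ω) ++ v)) = t k then (1 : ℝ) else 0)]
      refine (Fintype.sum_equiv (Fin.appendEquiv M1 M2) _ _ ?_).symm
      rintro ⟨w, ω⟩
      have e : W p c (Fin.appendEquiv M1 M2 (w, ω)) = W1 w ++ W2 ω := by
        rw [hW1, hW2]
        exact W_append p c w ω
      rw [e]
      refine if_congr ?_ rfl rfl
      simp only [hP]
      constructor
      · rintro ⟨⟨h1, h2⟩, h3⟩
        refine ⟨h1, fun r hr => ?_⟩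
        rcases Nat.lt_succ_iff_lt_or_eq.mp hr with h | h
        · exact h2 r h
        · rw [h]; exact h3
      · rintro ⟨h1, h2⟩
        exact ⟨⟨h1, fun r hr => h2 r (by omega)⟩, h2 k (by omega)⟩
    -- anti-concentration for each fixed `w`
    have hanti : ∀ w : Fin M1 → Fin (plen κ) → Bool, (((Finset.univ.filter fun ω :
          Fin M2 → Fin (plen κ) → Bool => P w ω ∧
            coeff (2 * k + 2) (T (u ++ (W1 w ++ W2 ω) ++ v)) = t k).card : ℕ) : ℝ) ≤
        ∑ ω : Fin M2 → Fin (plen κ) → Bool, if P w ω then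
          1 / Real.sqrt ((marked a b ω : ℝ) + 1) else 0 := by
      intro w
      have := swap_bound k d hd a b ha hb M2 (fun t => p (Fin.natAdd M1 t))
        (fun t => hp _) (fun t => c (Fin.natAdd M1 t)) (u ++ W1 w) v t
      rw [← hW2] at this
      simp only [List.append_assoc] at this ⊢
      simp only [hP, List.append_assoc]
      rw [Finset.sum_filter] at this
      exact this
    -- exchange
    have hexch : ∑ w : Fin M1 → Fin (plen κ) → Bool, ∑ ω : Fin M2 → Fin (plen κ) → Bool,
        (if P w ω then 1 / Real.sqrt ((marked a b ω : ℝ) + 1) else 0) =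
        ∑ ω : Fin M2 → Fin (plen κ) → Bool, 1 / Real.sqrt ((marked a b ω : ℝ) + 1) *
          (((Finset.univ.filter fun w : Fin M1 → Fin (plen κ) → Bool => P w ω).card : ℕ) : ℝ) := by
      rw [Finset.sum_comm]
      refine Finset.sum_congr rfl fun ω _ => ?_
      rw [Finset.card_filter]
      push_cast
      rw [Finset.mul_sum]
      refine Finset.sum_congr rfl fun w _ => ?_
      split_ifs <;> simp
    have hinner : ∀ ω : Fin M2 → Fin (plen κ) → Bool,
        (((Finset.univ.filter fun w : Fin M1 → Fin (plen κ) → Bool => P w ω).card : ℕ) : ℝ) *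
          (Real.sqrt M1) ^ k ≤ C * Q ^ M1 := by
      intro ω
      have := hC n M1 hM11 (fun t => p (Fin.castAdd M2 t)) (fun t => hp _)
        (fun t => c (Fin.castAdd M2 t)) u (W2 ω ++ v) t
      rw [← hW1] at this
      simp only [hP]
      simpa only [List.append_assoc] using this
    have hsum := sum_marked a b hab M2
    have hcardΩ : (Fintype.card (Fin (plen κ) → Bool) : ℝ) = Q := by
      simp [hQ]
    rw [hcardΩ] at hsum
    rw [hcount]
    have hS : (∑ w : Fin M1 → Fin (plen κ) → Bool, (((Finset.univ.filter fun ω :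
          Fin M2 → Fin (plen κ) → Bool => P w ω ∧
            coeff (2 * k + 2) (T (u ++ (W1 w ++ W2 ω) ++ v)) = t k).card : ℕ) : ℝ)) *
          (Real.sqrt M1) ^ k ≤ C * Q ^ M1 * (Q ^ M2 * Real.sqrt (Q / (M2 + 1))) := by
      calc _ ≤ (∑ ω : Fin M2 → Fin (plen κ) → Bool,
          1 / Real.sqrt ((marked a b ω : ℝ) + 1) *
          (((Finset.univ.filter fun w : Fin M1 → Fin (plen κ) → Bool => P w ω).card : ℕ) : ℝ)) *
          (Real.sqrt M1) ^ k := by
            refine mul_le_mul_of_nonneg_right ?_ (by positivity)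
            rw [← hexch]
            exact Finset.sum_le_sum fun w _ => hanti w
        _ = ∑ ω : Fin M2 → Fin (plen κ) → Bool, 1 / Real.sqrt ((marked a b ω : ℝ) + 1) *
          ((((Finset.univ.filter fun w : Fin M1 → Fin (plen κ) → Bool => P w ω).card : ℕ) : ℝ) *
          (Real.sqrt M1) ^ k) := by
            rw [Finset.sum_mul]
            exact Finset.sum_congr rfl fun ω _ => by ring
        _ ≤ ∑ ω : Fin M2 → Fin (plen κ) → Bool,
            1 / Real.sqrt ((marked a b ω : ℝ) + 1) * (C * Q ^ M1) :=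
            Finset.sum_le_sum fun ω _ => mul_le_mul_of_nonneg_left (hinner ω) (by positivity)
        _ = C * Q ^ M1 * ∑ ω : Fin M2 → Fin (plen κ) → Bool,
            1 / Real.sqrt ((marked a b ω : ℝ) + 1) := by
            rw [← Finset.sum_mul, mul_comm]
        _ ≤ _ := mul_le_mul_of_nonneg_left hsum (by positivity)
    obtain ⟨S, hSdef⟩ : ∃ S : ℝ, S = ∑ w : Fin M1 → Fin (plen κ) → Bool,
        (((Finset.univ.filter fun ω :
          Fin M2 → Fin (plen κ) → Bool => P w ω ∧
            coeff (2 * k + 2) (T (u ++ (W1 w ++ W2 ω) ++ v)) = t k).card : ℕ) : ℝ) := ⟨_, rfl⟩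
    rw [← hSdef] at hS ⊢
    have hS0 : 0 ≤ S := by
      rw [hSdef]
      exact Finset.sum_nonneg fun w _ => by positivity
    obtain ⟨M, hMdef⟩ : ∃ M : ℕ, M = M1 + M2 := ⟨_, rfl⟩
    rw [← hMdef] at hM1 hM2 ⊢
    have hNr : (M : ℝ) ≤ 2 * M1 := by exact_mod_cast hM1
    have hNr2 : (M : ℝ) ≤ 2 * (M2 + 1) := by exact_mod_cast hM2
    have hsq1 : Real.sqrt M ≤ Real.sqrt 2 * Real.sqrt M1 := by
      rw [← Real.sqrt_mul (by norm_num)]
      exact Real.sqrt_le_sqrt hNr
    have hsq2 : Real.sqrt M * Real.sqrt (Q / (M2 + 1)) ≤ Real.sqrt (2 * Q) := by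
      rw [← Real.sqrt_mul (by positivity)]
      apply Real.sqrt_le_sqrt
      rw [mul_div_assoc', div_le_iff₀ (by positivity)]
      nlinarith
    have hpow : Q ^ M = Q ^ M1 * Q ^ M2 := by
      rw [hMdef, pow_add]
    calc S * (Real.sqrt M) ^ (k + 1) = S * ((Real.sqrt M) ^ k * Real.sqrt M) := by rw [pow_succ]
      _ ≤ S * ((Real.sqrt 2 * Real.sqrt M1) ^ k * Real.sqrt M) := by
          refine mul_le_mul_of_nonneg_left ?_ hS0
          refine mul_le_mul_of_nonneg_right ?_ (Real.sqrt_nonneg _)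
          exact pow_le_pow_left₀ (Real.sqrt_nonneg _) hsq1 k
      _ = (S * (Real.sqrt M1) ^ k) * ((Real.sqrt 2) ^ k * Real.sqrt M) := by
          rw [mul_pow]; ring
      _ ≤ (C * Q ^ M1 * (Q ^ M2 * Real.sqrt (Q / (M2 + 1)))) *
            ((Real.sqrt 2) ^ k * Real.sqrt M) :=
          mul_le_mul_of_nonneg_right hS (by positivity)
      _ = C * Q ^ M1 * Q ^ M2 * (Real.sqrt 2) ^ k *
            (Real.sqrt M * Real.sqrt (Q / (M2 + 1))) := by ring
      _ ≤ C * Q ^ M1 * Q ^ M2 * (Real.sqrt 2) ^ k * Real.sqrt (2 * Q) :=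
          mul_le_mul_of_nonneg_left hsq2 (by positivity)
      _ = C * (Real.sqrt 2) ^ k * Real.sqrt (2 * Q) * Q ^ M := by
          rw [hpow]; ring

end Pool.Agent.Helper29.RD
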