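import Pool.Agent.Helper67.KZ.Defs

/-!
# Closed-braid shadows: free crossings, the pattern

A singular braid word (`SWord`) is also used as a shadow: the letters `(i, none)` are crossings
whose sign is still free, the letters `(i, some b)` are fixed crossings.
-/

set_option autoImplicit false

namespace Pool.Agent.Helper29.RD

open Pool.Agent.Helper67.KZ

/-- Choose the signs of the free crossings of `x`, from left to right, as given by the list
(positive when the list is exhausted). -/
def fill {n : ℕ} : SWord n → List Bool → Word n
  | [], _ => []
  | (i, some b) :: x, l => (i, b) :: fill x l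
  | (i, none) :: x, b :: l => (i, b) :: fill x l
  | (i, none) :: x, [] => (i, true) :: fill x []

/-- The shadow of the iterated commutator `[σ_i², [σ_i², .. [σ_i², σ_j²]]]` (`k` times). -/
def pat {n : ℕ} (i j : Fin n) : ℕ → List (Fin n)
  | 0 => [j, j]
  | k + 1 => [i, i] ++ pat i j k ++ [i, i] ++ (pat i j k).reverse

/-- `Has k m x`: the shadow `x` contains `m` disjoint copies of the pattern number `k`, each on
three adjacent strands, with all crossings free. -/
inductive Has {n : ℕ} (k : ℕ) : ℕ → SWord n → Prop
  | zero (x : SWord n) : Has k 0 x
  | succ (m : ℕ) (x y : SWord n) (i j : Fin n) (h : i.val + 1 = j.val ∨ j.val + 1 = i.val)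
      (hy : Has k m y) :
      Has k (m + 1) (x ++ (pat i j k).map (fun a => (a, none)) ++ y)

end Pool.Agent.Helper29.RD
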