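import Pool.Agent.Helper29.RD.Defs
import Pool.Agent.Helper67.KZ.Final

/-!
# The signs of the pattern: every commutator `cw i j k`, `k ≤ κ`, and the trivial braid
-/

set_option autoImplicit false

namespace Pool.Agent.Helper29.RD

open Pool.Agent.Helper67.KZ PowerSeries

/-- the length of the pattern -/
def plen : ℕ → ℕ
  | 0 => 2
  | k + 1 => 4 + 2 * plen k

/-- half of the pattern (every letter once) -/
def hp {n : ℕ} (i j : Fin n) : ℕ → List (Fin n)
  | 0 => [j]
  | k + 1 => [i] ++ hp i j k ++ [i] ++ (hp i j k).reverse

/-- every letter doubled -/
def dbl {α : Type} : List α → List α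
  | [] => []
  | a :: s => a :: a :: dbl s

lemma dbl_append {α : Type} (s t : List α) : dbl (s ++ t) = dbl s ++ dbl t := by
  induction s with
  | nil => rfl
  | cons a s ih => simp [dbl, ih]

lemma dbl_reverse {α : Type} (s : List α) : (dbl s).reverse = dbl s.reverse := by
  induction s with
  | nil => rfl
  | cons a s ih => simp [dbl, dbl_append, ih]

lemma pat_eq {n : ℕ} (i j : Fin n) (k : ℕ) : pat i j k = dbl (hp i j k) := by
  induction k with
  | zero => rfl
  | succ k ih =>
    rw [pat, hp, dbl_append, dbl_append, dbl_append, ih, dbl_reverse]
    rfl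

lemma pat_length {n : ℕ} (i j : Fin n) (k : ℕ) : (pat i j k).length = plen k := by
  induction k with
  | zero => rfl
  | succ k ih =>
    rw [pat, plen, List.length_append, List.length_append, List.length_append,
      List.length_reverse, ih]
    simp
    omega

/-- alternating signs -/
def alt : ℕ → List Bool
  | 0 => []
  | k + 1 => true :: false :: alt k

lemma alt_length (k : ℕ) : (alt k).length = 2 * k := by
  induction k with
  | zero => rfl
  | succ k ih => simp [alt, ih]; omega

lemma alt_append (a b : ℕ) : alt (a + b) = alt a ++ alt b := by
  induction a with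
  | zero => simp [alt]
  | succ a ih => rw [Nat.succ_add]; simp [alt, ih]

lemma perm_cons {n : ℕ} (a : Fin n × Bool) (w : Word n) : perm (a :: w) = tau a.1 * perm w := by
  simp [perm]

lemma perm_nil {n : ℕ} : perm ([] : Word n) = 1 := by simp [perm]

lemma zip_alt {n : ℕ} (s : List (Fin n)) :
    rho (List.zip (dbl s) (alt s.length)) = 1 ∧ perm (List.zip (dbl s) (alt s.length)) = 1 := by
  induction s with
  | nil => exact ⟨rho_nil, perm_nil⟩
  | cons a s ih =>
    have e : List.zip (dbl (a :: s)) (alt (a :: s).length) =
        (a, true) :: (a, false) :: List.zip (dbl s) (alt s.length) := rfl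
    rw [e]
    constructor
    · rw [rho_cons, rho_cons, ih.1, mul_one]
      exact cr_cancel a true
    · rw [perm_cons, perm_cons, ih.2, mul_one]
      exact tau_mul_tau a

/-- half of the length of the pattern -/
def hlen : ℕ → ℕ
  | 0 => 1
  | k + 1 => 2 + 2 * hlen k

lemma hp_length {n : ℕ} (i j : Fin n) (k : ℕ) : (hp i j k).length = hlen k := by
  induction k with
  | zero => rfl
  | succ k ih =>
    rw [hp, hlen, List.length_append, List.length_append, List.length_append,
      List.length_reverse, ih]
    simp
    omega

lemma plen_eq (k : ℕ) : plen k = 2 * hlen k := by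
  induction k with
  | zero => rfl
  | succ k ih => rw [plen, hlen, ih]; omega

/-- the signs of the commutator -/
def sgn : ℕ → List Bool
  | 0 => [true, true]
  | k + 1 => [true, true] ++ sgn k ++ [false, false] ++ ((sgn k).map not).reverse

lemma sgn_length (k : ℕ) : (sgn k).length = plen k := by
  induction k with
  | zero => rfl
  | succ k ih =>
    rw [sgn, plen, List.length_append, List.length_append, List.length_append,
      List.length_reverse, List.length_map, ih]
    simp
    omega

lemma winv_zip {n : ℕ} (s : List (Fin n)) : ∀ (l : List Bool), s.length = l.length →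
    winv (List.zip s l) = List.zip s.reverse (l.map not).reverse := by
  induction s with
  | nil => intro l _; simp [winv]
  | cons a s ih =>
    intro l h
    cases l with
    | nil => simp at h
    | cons b l =>
      have hl : s.length = l.length := by simpa using h
      have h1 := ih l hl
      unfold winv at h1 ⊢
      rw [List.zip_cons_cons, List.map_cons, List.reverse_cons, h1, List.map_cons,
        List.reverse_cons, List.reverse_cons, List.zip_append (by simp [hl])]
      rfl

lemma cw_eq {n : ℕ} (i j : Fin n) (k : ℕ) : cw i j k = List.zip (pat i j k) (sgn k) := by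
  induction k with
  | zero => rfl
  | succ k ih =>
    have hl : (pat i j k).length = (sgn k).length := by rw [pat_length, sgn_length]
    rw [cw, pat, sgn, ih, winv_zip _ _ hl]
    rw [List.zip_append (by simp [hl]), List.zip_append (by simp [hl]),
      List.zip_append (by simp)]
    rfl

/-- the signs which resolve the pattern number `k + d` to `cw i j k` -/
def es (k : ℕ) : ℕ → List Bool
  | 0 => sgn k
  | d + 1 => [true, false] ++ es k d ++ [true, false] ++ alt (hlen (k + d))

lemma es_length (k d : ℕ) : (es k d).length = plen (k + d) := by
  induction d with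
  | zero => exact sgn_length k
  | succ d ih =>
    rw [es, ← Nat.add_assoc, plen, List.length_append, List.length_append, List.length_append, ih,
      alt_length, plen_eq]
    simp
    omega

lemma es_spec {n : ℕ} (i j : Fin n) (k d : ℕ) :
    rho (List.zip (pat i j (k + d)) (es k d)) = rho (cw i j k) ∧
      perm (List.zip (pat i j (k + d)) (es k d)) = 1 := by
  induction d with
  | zero =>
    rw [es, Nat.add_zero, ← cw_eq]
    exact ⟨rfl, perm_cw i j k⟩
  | succ d ih =>
    have hl : (pat i j (k + d)).length = (es k d).length := by rw [pat_length, es_length]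
    have e : List.zip (pat i j (k + (d + 1))) (es k (d + 1)) =
        List.zip [i, i] [true, false] ++ List.zip (pat i j (k + d)) (es k d) ++
          List.zip [i, i] [true, false] ++
          List.zip (dbl (hp i j (k + d)).reverse) (alt (hp i j (k + d)).reverse.length) := by
      rw [← Nat.add_assoc, pat, es, List.zip_append (by simp [hl]), List.zip_append (by simp [hl]),
        List.zip_append (by simp), pat_eq, dbl_reverse, List.length_reverse, hp_length]
    have h1 : rho (List.zip [i, i] [true, false]) = 1 ∧ perm (List.zip [i, i] [true, false]) = 1 :=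
      zip_alt [i]
    have h2 := zip_alt (hp i j (k + d)).reverse
    rw [e]
    constructor
    · rw [rho_append, rho_append, rho_append, h1.1, h2.1, ih.1, one_mul, mul_one, mul_one]
    · rw [perm_append, perm_append, perm_append, h1.2, h2.2, ih.2, one_mul, mul_one, mul_one]

lemma tr_spec {n : ℕ} (i j : Fin n) (k : ℕ) :
    rho (List.zip (pat i j k) (alt (hlen k))) = 1 ∧
      perm (List.zip (pat i j k) (alt (hlen k))) = 1 := by
  have h := zip_alt (hp i j k)
  rw [← pat_eq, hp_length] at h
  exact h

lemma sgn_head (k : ℕ) : ∃ l, sgn k = true :: true :: l := by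
  cases k with
  | zero => exact ⟨[], rfl⟩
  | succ k => exact ⟨sgn k ++ [false, false] ++ ((sgn k).map not).reverse, by simp [sgn]⟩

lemma es_ne (k d : ℕ) : es k d ≠ alt (hlen (k + d)) := by
  induction d with
  | zero =>
    obtain ⟨l, hl⟩ := sgn_head k
    obtain ⟨m, hm⟩ : ∃ m, hlen k = m + 1 := by
      cases k with
      | zero => exact ⟨0, rfl⟩
      | succ k => exact ⟨1 + 2 * hlen k, by rw [hlen]; omega⟩
    rw [Nat.add_zero, es, hl, hm, alt]
    intro h
    simp at h
  | succ d ih =>
    intro h
    apply ih
    rw [es, ← Nat.add_assoc, hlen] at h
    have e : alt (2 + 2 * hlen (k + d)) = [true, false] ++ alt (hlen (k + d)) ++ [true, false] ++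
        alt (hlen (k + d)) := by
      rw [show 2 + 2 * hlen (k + d) = 1 + hlen (k + d) + 1 + hlen (k + d) by omega, alt_append,
        alt_append, alt_append]
      rfl
    rw [e] at h
    have h1 := List.append_inj_left h (by
      simp only [List.length_append, es_length, alt_length, plen_eq])
    have h2 := List.append_inj_left h1 (by
      simp only [List.length_append, es_length, alt_length, plen_eq])
    exact (List.append_right_inj _).1 h2

/-- the value of `T` depends only on `rho` -/
lemma T_congr {n : ℕ} (u v w w' : Word n) (h : rho w = rho w') :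
    T (u ++ w ++ v) = T (u ++ w' ++ v) := by
  unfold T
  rw [rho_append, rho_append, rho_append, rho_append, h]

end Pool.Agent.Helper29.RD
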