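import Pool.Agent.Helper29.RD.Core

/-!
# The sign choices of a shadow with many copies of the pattern, and the theorem
-/

set_option autoImplicit false

namespace Pool.Agent.Helper29.RD

open Pool.Agent.Helper67.KZ PowerSeries

lemma dp_append {n : ℕ} (x y : SWord n) :
    doublePoints (x ++ y) = doublePoints x + doublePoints y := by
  unfold doublePoints
  rw [List.countP_append]

lemma dp_none {n : ℕ} (i : Fin n) (x : SWord n) :
    doublePoints ((i, none) :: x) = doublePoints x + 1 := by
  unfold doublePoints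
  rw [List.countP_cons]
  rfl

lemma dp_some {n : ℕ} (i : Fin n) (b : Bool) (x : SWord n) :
    doublePoints ((i, some b) :: x) = doublePoints x := by
  unfold doublePoints
  rw [List.countP_cons]
  rfl

lemma dp_pat {n : ℕ} (s : List (Fin n)) :
    doublePoints (s.map fun a => ((a, none) : Fin n × Option Bool)) = s.length := by
  induction s with
  | nil => rfl
  | cons a s ih => rw [List.map_cons, dp_none, ih, List.length_cons]

lemma fill_append {n : ℕ} (x y : SWord n) : ∀ l1 l2 : List Bool, l1.length = doublePoints x →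
    fill (x ++ y) (l1 ++ l2) = fill x l1 ++ fill y l2 := by
  induction x with
  | nil =>
    intro l1 l2 h
    have h1 : l1 = [] := List.length_eq_zero_iff.1 h
    subst h1
    simp [fill]
  | cons a x ih =>
    obtain ⟨i, b⟩ := a
    intro l1 l2 h
    cases b with
    | some b =>
      rw [dp_some] at h
      rw [List.cons_append, fill, fill, ih l1 l2 h, List.cons_append]
    | none =>
      rw [dp_none] at h
      cases l1 with
      | nil => simp at h
      | cons b l1 =>
        have h1 : l1.length = doublePoints x := by simpa using h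
        rw [List.cons_append, List.cons_append, fill, fill, ih l1 l2 h1, List.cons_append]

lemma fill_pat {n : ℕ} (s : List (Fin n)) : ∀ l : List Bool, l.length = s.length →
    fill (s.map fun a => ((a, none) : Fin n × Option Bool)) l = List.zip s l := by
  induction s with
  | nil => intro l _; simp [fill]
  | cons a s ih =>
    intro l h
    cases l with
    | nil => simp at h
    | cons b l =>
      have h1 : l.length = s.length := by simpa using h
      rw [List.map_cons, fill, ih l h1, List.zip_cons_cons]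

lemma split_equiv (N a b : ℕ) (h : N = a + b) :
    ∃ e : (Fin N → Bool) ≃ (Fin a → Bool) × (Fin b → Bool),
      ∀ ε, List.ofFn ε = List.ofFn (e ε).1 ++ List.ofFn (e ε).2 := by
  subst h
  refine ⟨(Fin.appendEquiv a b).symm, fun ε => ?_⟩
  obtain ⟨q, rfl⟩ := (Fin.appendEquiv a b).surjective ε
  rw [Equiv.symm_apply_apply]
  exact List.ofFn_fin_append q.1 q.2

/-- regrouping -/
def regroup (α ι Ω : Type) (m : ℕ) :
    α × (Ω × (ι × (Fin m → Ω))) ≃ (α × ι) × (Fin (m + 1) → Ω) where
  toFun q := ((q.1, q.2.2.1), Fin.cons q.2.1 q.2.2.2)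
  invFun q := (q.1.1, (q.2 0, (q.1.2, Fin.tail q.2)))
  left_inv q := by
    obtain ⟨a, o, i, f⟩ := q
    simp
  right_inv q := by
    obtain ⟨⟨a, i⟩, f⟩ := q
    simp

lemma W_cons {n κ m : ℕ} (p0 : Fin n × Fin n) (p : Fin m → Fin n × Fin n) (c0 : Word n)
    (c : Fin m → Word n) (ω0 : Fin (plen κ) → Bool) (ω : Fin m → Fin (plen κ) → Bool) :
    W (Fin.cons p0 p : Fin (m + 1) → Fin n × Fin n) (Fin.cons c0 c : Fin (m + 1) → Word n)
      (Fin.cons ω0 ω : Fin (m + 1) → Fin (plen κ) → Bool) =
      blk κ p0 ω0 ++ c0 ++ W p c ω := by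
  unfold W blocks
  rw [List.ofFn_succ, List.flatten_cons]
  simp only [Fin.cons_zero, Fin.cons_succ]

lemma has_split {n κ m : ℕ} {x : SWord n} (h : Has κ m x) :
    ∃ (ι : Type) (_ : Fintype ι) (p : Fin m → Fin n × Fin n) (u : ι → Word n)
      (c : ι → Fin m → Word n)
      (e : (Fin (doublePoints x) → Bool) ≃ ι × (Fin m → Fin (plen κ) → Bool)),
      (∀ t, (p t).1.val + 1 = (p t).2.val ∨ (p t).2.val + 1 = (p t).1.val) ∧
      ∀ ε, fill x (List.ofFn ε) = u (e ε).1 ++ W p (c (e ε).1) (e ε).2 := by
  induction h with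
  | zero x =>
    refine ⟨Fin (doublePoints x) → Bool, inferInstance, Fin.elim0, fun δ => fill x (List.ofFn δ),
      fun _ => Fin.elim0, (Equiv.prodUnique _ _).symm, fun t => t.elim0, fun ε => ?_⟩
    have e : ∀ (ω : Fin 0 → Fin (plen κ) → Bool) (p : Fin 0 → Fin n × Fin n)
        (c : Fin 0 → Word n), W p c ω = [] := by
      intro ω p c
      unfold W blocks
      simp
    rw [e, List.append_nil]
    rfl
  | succ m x y i j h hy ih =>
    obtain ⟨ι, _, p, u, c, e, hp, he⟩ := ih
    have hdp : doublePoints (x ++ (pat i j κ).map (fun a => (a, none)) ++ y) =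
        doublePoints x + (plen κ + doublePoints y) := by
      rw [dp_append, dp_append, dp_pat, pat_length, Nat.add_assoc]
    obtain ⟨e1, he1⟩ := split_equiv _ _ _ hdp
    obtain ⟨e2, he2⟩ := split_equiv (plen κ + doublePoints y) (plen κ) (doublePoints y) rfl
    refine ⟨(Fin (doublePoints x) → Bool) × ι, inferInstance, Fin.cons (i, j) p,
      fun q => fill x (List.ofFn q.1), fun q => Fin.cons (u q.2) (c q.2),
      e1.trans (((Equiv.refl _).prodCongr (e2.trans ((Equiv.refl _).prodCongr e))).trans
        (regroup _ ι _ m)), ?_, ?_⟩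
    · intro t
      refine Fin.cases ?_ (fun s => ?_) t
      · exact h
      · rw [Fin.cons_succ]
        exact hp s
    · intro ε
      have e0 : (e1.trans (((Equiv.refl _).prodCongr (e2.trans ((Equiv.refl _).prodCongr e))).trans
        (regroup _ ι _ m))) ε = (((e1 ε).1, (e (e2 (e1 ε).2).2).1),
          Fin.cons (e2 (e1 ε).2).1 (e (e2 (e1 ε).2).2).2) := rfl
      rw [e0]
      show _ = fill x (List.ofFn (e1 ε).1) ++ W (Fin.cons (i, j) p)
        (Fin.cons (u (e (e2 (e1 ε).2).2).1) (c (e (e2 (e1 ε).2).2).1))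
        (Fin.cons (e2 (e1 ε).2).1 (e (e2 (e1 ε).2).2).2)
      have hfill : ∀ l1 l2 l3 : List Bool, l1.length = doublePoints x → l2.length = plen κ →
          fill (x ++ (pat i j κ).map (fun a => (a, none)) ++ y) (l1 ++ (l2 ++ l3)) =
            fill x l1 ++ (List.zip (pat i j κ) l2 ++ fill y l3) := by
        intro l1 l2 l3 hl1 hl2
        rw [List.append_assoc x, fill_append _ _ _ _ hl1,
          fill_append _ _ _ _ (by rw [hl2, dp_pat, pat_length]),
          fill_pat _ _ (by rw [hl2, pat_length])]
      rw [W_cons, he1 ε, he2 (e1 ε).2, hfill _ _ _ (by rw [List.length_ofFn])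
        (by rw [List.length_ofFn]), he]
      unfold blk
      simp only [List.append_assoc]

lemma perm_fill {n : ℕ} (x : SWord n) : ∀ l : List Bool,
    perm (fill x l) = (x.map fun a => tau a.1).prod := by
  induction x with
  | nil => intro l; simp [fill, perm]
  | cons a x ih =>
    obtain ⟨i, b⟩ := a
    intro l
    cases b with
    | some b =>
      rw [fill, perm_cons, ih l, List.map_cons, List.prod_cons]
    | none =>
      cases l with
      | nil => rw [fill, perm_cons, ih [], List.map_cons, List.prod_cons]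
      | cons b l => rw [fill, perm_cons, ih l, List.map_cons, List.prod_cons]

/-- For every `k` there is `C` such that in every shadow with one component, on any number of
strands, with `m ≥ 1` disjoint copies of the pattern number `2 k - 1`, at most `C / m ^ (k / 2)`
of the sign choices of the free crossings agree with `K` in all Vassiliev invariants of degree
`≤ 2 k`. -/
theorem quenched (k : ℕ) : ∃ C : ℝ, 0 ≤ C ∧ ∀ (n : ℕ) (x : SWord n), SIsKnot x → ∀ m : ℕ, 1 ≤ m →
    Has (2 * k - 1) m x → ∀ (l : ℕ) (K : Word l),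
    ({ε : Fin (doublePoints x) → Bool |
        Agree (2 * k) (fill x (List.ofFn ε)) K}.ncard : ℝ) * (Real.sqrt m) ^ k ≤
      C * 2 ^ doublePoints x := by
  classical
  obtain ⟨C, hC0, hC⟩ := core (2 * k - 1) k (by omega)
  refine ⟨C, hC0, fun n x hx m hm hh l K => ?_⟩
  obtain ⟨ι, _, p, u, c, e, hp, he⟩ := has_split hh
  obtain ⟨P, hP⟩ : ∃ P : ι → (Fin m → Fin (plen (2 * k - 1)) → Bool) → Prop, P = fun a ω =>
    IsKnot (u a ++ W p (c a) ω ++ []) ∧ ∀ r < k,
      coeff (2 * r + 2) (T (u a ++ W p (c a) ω ++ [])) = coeff (2 * r + 2) (T K) := ⟨_, rfl⟩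
  have h1 : ∀ ε, Agree (2 * k) (fill x (List.ofFn ε)) K → P (e ε).1 (e ε).2 := by
    intro ε hε
    rw [hP]
    simp only [List.append_nil]
    rw [← he ε]
    refine ⟨?_, fun r hr => ?_⟩
    · unfold IsKnot
      rw [perm_fill]
      exact hx
    · have h2 := T_vassiliev (2 * r + 2)
      exact hε _ ⟨h2.markov, fun n x hx hd => h2.finite_type n x hx (lt_of_le_of_lt (by omega) hd)⟩
  have h2 : ({ε : Fin (doublePoints x) → Bool |
      Agree (2 * k) (fill x (List.ofFn ε)) K}.ncard : ℝ) ≤
      ∑ a : ι, (((Finset.univ.filter fun ω => P a ω).card : ℕ) : ℝ) := by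
    have h3 : {ε : Fin (doublePoints x) → Bool |
        Agree (2 * k) (fill x (List.ofFn ε)) K}.ncard ≤
        ((Finset.univ : Finset (ι × (Fin m → Fin (plen (2 * k - 1)) → Bool))).filter
          fun q => P q.1 q.2).card := by
      rw [← Set.ncard_image_of_injective _ e.injective, ← Set.ncard_coe_finset]
      refine Set.ncard_le_ncard ?_ (Set.toFinite _)
      rintro _ ⟨ε, hε, rfl⟩
      simp only [Finset.coe_filter, Finset.mem_univ, true_and, Set.mem_ofPred_eq]
      exact h1 ε hε
    refine (Nat.cast_le.mpr h3).trans (le_of_eq ?_)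
    rw [Finset.card_filter, Fintype.sum_prod_type]
    push_cast
    refine Finset.sum_congr rfl fun a _ => ?_
    rw [Finset.card_filter]
    push_cast
    rfl
  have h3 : ∀ a : ι, (((Finset.univ.filter fun ω => P a ω).card : ℕ) : ℝ) * (Real.sqrt m) ^ k ≤
      C * ((2 : ℝ) ^ plen (2 * k - 1)) ^ m := by
    intro a
    have h4 := hC n m hm p hp (c a) (u a) [] (fun r => coeff (2 * r + 2) (T K))
    rw [hP]
    convert h4
  have hcard : (Fintype.card ι : ℝ) * ((2 : ℝ) ^ plen (2 * k - 1)) ^ m =
      2 ^ doublePoints x := by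
    have h5 := Fintype.card_congr e
    simp only [Fintype.card_fun, Fintype.card_bool, Fintype.card_fin, Fintype.card_prod] at h5
    exact_mod_cast h5.symm
  calc _ ≤ (∑ a : ι, (((Finset.univ.filter fun ω => P a ω).card : ℕ) : ℝ)) * (Real.sqrt m) ^ k :=
        mul_le_mul_of_nonneg_right h2 (by positivity)
    _ = ∑ a : ι, (((Finset.univ.filter fun ω => P a ω).card : ℕ) : ℝ) * (Real.sqrt m) ^ k :=
        Finset.sum_mul _ _ _
    _ ≤ ∑ _a : ι, C * ((2 : ℝ) ^ plen (2 * k - 1)) ^ m :=
        Finset.sum_le_sum fun a _ => h3 a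
    _ = C * ((Fintype.card ι : ℝ) * ((2 : ℝ) ^ plen (2 * k - 1)) ^ m) := by
        rw [Finset.sum_const, Finset.card_univ, nsmul_eq_mul]
        ring
    _ = _ := by rw [hcard]

end Pool.Agent.Helper29.RD
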