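import Pool.Agent.Helper29.RD.Split

/-!
# Almost all shadows contain many disjoint copies of the pattern
-/

set_option autoImplicit false

namespace Pool.Agent.Helper29.RD

open Pool.Agent.Helper67.KZ PowerSeries

lemma has_count {n κ : ℕ} (i j : Fin n) (h : i.val + 1 = j.val ∨ j.val + 1 = i.val) (B : List (List (Fin n))) :
    ∀ x0 : SWord n, Has κ (B.countP fun b => decide (b = pat i j κ))
      (x0 ++ B.flatten.map fun a => ((a, none) : Fin n × Option Bool)) := by
  induction B with
  | nil => intro x0; exact Has.zero _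
  | cons b B ih =>
    intro x0
    by_cases hb : b = pat i j κ
    · rw [List.countP_cons_of_pos (by simpa using hb), List.flatten_cons, List.map_append, hb,
        ← List.append_assoc]
      refine Has.succ _ x0 _ i j h ?_
      have h1 := ih []
      rw [List.nil_append] at h1
      exact h1
    · rw [List.countP_cons_of_neg (by simpa using hb), List.flatten_cons, List.map_append,
        ← List.append_assoc]
      exact ih _

lemma half_pow {β : Type} (p : β → Bool) (B : List β) :
    ((1 : ℝ) / 2) ^ (B.countP p) = (B.map fun b => if p b then (1 : ℝ) / 2 else 1).prod := by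
  induction B with
  | nil => simp
  | cons b B ih =>
    rw [List.countP_cons, List.map_cons, List.prod_cons, ← ih]
    by_cases hb : p b = true
    · rw [if_pos hb, if_pos hb, pow_succ, mul_comm]
    · rw [if_neg hb, if_neg hb, Nat.add_zero, one_mul]

lemma split_ofFn {α : Type} (N' M L : ℕ) (w : Fin N' → α) (ω : Fin M → Fin L → α) :
    List.ofFn (splitEquiv α N' M L (w, ω)) =
      List.ofFn w ++ (List.ofFn fun m => List.ofFn (ω m)).flatten := by
  have : splitEquiv α N' M L (w, ω) = Fin.append w (fun x : Fin (M * L) =>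
      ω (finProdFinEquiv.symm x).1 (finProdFinEquiv.symm x).2) := rfl
  rw [this, List.ofFn_fin_append, List.ofFn_mul]
  congr 3
  funext p
  congr 1
  funext r
  have hx : (⟨p * L + r, by
      calc (p : ℕ) * L + r < (p + 1) * L := by
            rw [add_one_mul]; exact Nat.add_lt_add_left r.2 _
        _ ≤ _ := Nat.mul_le_mul_right _ p.2⟩ : Fin (M * L)) = finProdFinEquiv (p, r) := by
    apply Fin.ext
    simp [finProdFinEquiv, mul_comm, add_comm]
  rw [hx, Equiv.symm_apply_apply]

/-- the number of blocks equal to the pattern -/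
def cnt {n κ L M : ℕ} (i j : Fin n) (ω : Fin M → Fin L → Fin n) : ℕ :=
  (List.ofFn fun m => List.ofFn (ω m)).countP fun b => decide (b = pat i j κ)

open Classical in
lemma few {n κ : ℕ} (hn : 1 ≤ n) (i j : Fin n) (M : ℕ) (Q : ℝ) (hQ : Q = (n : ℝ) ^ plen κ) :
    (((Finset.univ.filter fun ω : Fin M → Fin (plen κ) → Fin n =>
      (cnt (κ := κ) i j ω : ℝ) ≤ M / (4 * Q)).card : ℕ) : ℝ) ≤ Q ^ M * Real.exp (-(M / (4 * Q))) := by
  have hn0 : (0 : ℝ) < n := by exact_mod_cast hn
  have hQ0 : 0 < Q := by rw [hQ]; positivity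
  have hQ1 : 1 ≤ Q := by
    rw [hQ]
    exact one_le_pow₀ (by exact_mod_cast hn)
  obtain ⟨a0, ha0⟩ : ∃ a0 : Fin (plen κ) → Fin n, List.ofFn a0 = pat i j κ := by
    rw [← pat_length i j κ]
    exact ⟨(pat i j κ).get, List.ofFn_get _⟩
  have hf : ∀ b : Fin (plen κ) → Fin n, decide (List.ofFn b = pat i j κ) = decide (b = a0) := by
    intro b
    rw [← ha0]
    congr 1
    exact propext List.ofFn_inj
  have hprod : ∀ ω : Fin M → Fin (plen κ) → Fin n, ((1 : ℝ) / 2) ^ (cnt (κ := κ) i j ω) =
      ∏ t, (if ω t = a0 then (1 : ℝ) / 2 else 1) := by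
    intro ω
    rw [cnt, half_pow, List.map_ofFn, List.prod_ofFn]
    refine Finset.prod_congr rfl fun t _ => ?_
    show (if decide (List.ofFn (ω t) = pat i j κ) = true then (1 : ℝ) / 2 else 1) = _
    rw [hf]
    by_cases h : ω t = a0
    · rw [if_pos (by simpa using h), if_pos h]
    · rw [if_neg (by simpa using h), if_neg h]
  have hsum1 : ∑ b : Fin (plen κ) → Fin n, (if b = a0 then (1 : ℝ) / 2 else 1) = Q - 1 / 2 := by
    have h1 : ∀ b : Fin (plen κ) → Fin n, (if b = a0 then (1 : ℝ) / 2 else 1) =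
        1 - (if b = a0 then (1 : ℝ) / 2 else 0) := by
      intro b
      split_ifs <;> norm_num
    rw [Finset.sum_congr rfl fun b _ => h1 b, Finset.sum_sub_distrib, Finset.sum_ite_eq',
      if_pos (Finset.mem_univ _), Finset.sum_const, Finset.card_univ, nsmul_eq_mul, mul_one]
    simp [hQ]
  have hsum : ∑ ω : Fin M → Fin (plen κ) → Fin n, ((1 : ℝ) / 2) ^ (cnt (κ := κ) i j ω) =
      (Q - 1 / 2) ^ M := by
    rw [Finset.sum_congr rfl fun ω _ => hprod ω, ← hsum1, Fintype.sum_pow]
  have hle : (Q - 1 / 2) ^ M ≤ Q ^ M * Real.exp (-(M / (2 * Q))) := by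
    have h1 : Q - 1 / 2 ≤ Q * Real.exp (-(1 / (2 * Q))) := by
      have h2 := Real.add_one_le_exp (-(1 / (2 * Q)))
      have h3 : Q * (-(1 / (2 * Q)) + 1) = Q - 1 / 2 := by
        field_simp
        ring
      rw [← h3]
      exact mul_le_mul_of_nonneg_left h2 hQ0.le
    have h4 : 0 ≤ Q - 1 / 2 := by linarith
    refine (pow_le_pow_left₀ h4 h1 M).trans (le_of_eq ?_)
    rw [mul_pow, ← Real.exp_nat_mul]
    congr 2
    field_simp
  have hbad : (((Finset.univ.filter fun ω : Fin M → Fin (plen κ) → Fin n =>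
      (cnt (κ := κ) i j ω : ℝ) ≤ M / (4 * Q)).card : ℕ) : ℝ) ≤
      Real.exp (M / (4 * Q)) * (Q - 1 / 2) ^ M := by
    rw [← hsum, Finset.mul_sum, Finset.card_eq_sum_ones]
    push_cast
    refine (Finset.sum_le_sum (g := fun ω : Fin M → Fin (plen κ) → Fin n =>
      Real.exp (M / (4 * Q)) * ((1 : ℝ) / 2) ^ (cnt (κ := κ) i j ω)) fun ω hω => ?_).trans
      (Finset.sum_le_sum_of_subset_of_nonneg (Finset.filter_subset _ _) fun ω _ _ => by positivity)
    rw [Finset.mem_filter] at hω
    have h1 : (2 : ℝ) ^ (cnt (κ := κ) i j ω) ≤ Real.exp (M / (4 * Q)) := by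
      have h2 : (2 : ℝ) ≤ Real.exp 1 := by
        have := Real.add_one_le_exp (1 : ℝ)
        linarith
      calc (2 : ℝ) ^ (cnt (κ := κ) i j ω) ≤ Real.exp 1 ^ (cnt (κ := κ) i j ω) :=
            pow_le_pow_left₀ (by norm_num) h2 _
        _ = Real.exp (cnt (κ := κ) i j ω) := by
            rw [← Real.exp_nat_mul, mul_one]
        _ ≤ _ := Real.exp_le_exp.2 hω.2
    calc (1 : ℝ) = (2 : ℝ) ^ (cnt (κ := κ) i j ω) * ((1 : ℝ) / 2) ^ (cnt (κ := κ) i j ω) := by
          rw [← mul_pow]
          norm_num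
      _ ≤ _ := mul_le_mul_of_nonneg_right h1 (by positivity)
  refine hbad.trans ?_
  calc Real.exp (M / (4 * Q)) * (Q - 1 / 2) ^ M ≤
        Real.exp (M / (4 * Q)) * (Q ^ M * Real.exp (-(M / (2 * Q)))) :=
        mul_le_mul_of_nonneg_left hle (Real.exp_pos _).le
    _ = Q ^ M * (Real.exp (M / (4 * Q)) * Real.exp (-(M / (2 * Q)))) := by ring
    _ = _ := by
        rw [← Real.exp_add]
        congr 2
        field_simp
        ring

lemma transfer {n : ℕ} (x : SWord n) (N : ℕ) (h : doublePoints x = N) (Qp : Word n → Prop) :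
    {ε : Fin N → Bool | Qp (fill x (List.ofFn ε))}.ncard =
      {ε : Fin (doublePoints x) → Bool | Qp (fill x (List.ofFn ε))}.ncard := by
  subst h
  rfl

lemma zip_ofFn {n N : ℕ} (s : Fin N → Fin n) (ε : Fin N → Bool) :
    List.zip (List.ofFn s) (List.ofFn ε) = List.ofFn fun t => (s t, ε t) := by
  apply List.ext_getElem
  · simp
  · intro k h1 h2
    simp

theorem typical (n : ℕ) (hn : 2 ≤ n) (k : ℕ) : ∃ C c : ℝ, 0 < c ∧ ∀ N : ℕ,
    ({s : Fin N → Fin n | SIsKnot (List.ofFn fun t => ((s t, none) : Fin n × Option Bool)) ∧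
      ∃ (l : ℕ) (K : Word l), C * 2 ^ N <
        ({ε : Fin N → Bool | Agree (2 * k) (List.ofFn fun t => (s t, ε t)) K}.ncard : ℝ) *
          (Real.sqrt N) ^ k}.ncard : ℝ) ≤ Real.exp (-(c * N)) * (n : ℝ) ^ N := by
  classical
  obtain ⟨C0, hC00, hC0⟩ := quenched k
  obtain ⟨κ, hκ⟩ : ∃ κ, κ = 2 * k - 1 := ⟨_, rfl⟩
  rw [← hκ] at hC0
  obtain ⟨L, hL⟩ : ∃ L, L = plen κ := ⟨_, rfl⟩
  have hL1 : 1 ≤ L := by
    rw [hL]
    cases κ with
    | zero => rw [plen]; omega
    | succ k => rw [plen]; omega
  obtain ⟨Q, hQ⟩ : ∃ Q : ℝ, Q = (n : ℝ) ^ plen κ := ⟨_, rfl⟩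
  have hn0 : (0 : ℝ) < n := by
    have : 0 < n := by omega
    exact_mod_cast this
  have hQ0 : 0 < Q := by rw [hQ]; positivity
  have hL0 : (0 : ℝ) < L := by exact_mod_cast hL1
  refine ⟨(Real.sqrt (8 * L * Q)) ^ k * C0 + (Real.sqrt L) ^ k, 1 / (8 * L * Q), by positivity, fun N => ?_⟩
  -- the number of sign choices for one shadow
  have hone : ∀ (s : Fin N → Fin n) (l : ℕ) (K : Word l),
      {ε : Fin N → Bool | Agree (2 * k) (List.ofFn fun t => (s t, ε t)) K}.ncard =
        {ε : Fin (doublePoints (List.ofFn fun t => ((s t, none) : Fin n × Option Bool))) → Bool |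
          Agree (2 * k) (fill (List.ofFn fun t => ((s t, none) : Fin n × Option Bool))
            (List.ofFn ε)) K}.ncard := by
    intro s l K
    have e : (List.ofFn fun t => ((s t, none) : Fin n × Option Bool)) =
        (List.ofFn s).map fun a => (a, none) := by
      rw [List.map_ofFn]
      rfl
    have hd : doublePoints (List.ofFn fun t => ((s t, none) : Fin n × Option Bool)) = N := by
      rw [e, dp_pat, List.length_ofFn]
    rw [← transfer _ N hd (fun w => Agree (2 * k) w K)]
    congr 1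
    ext ε
    rw [Set.mem_ofPred_eq, Set.mem_ofPred_eq, e, fill_pat _ _ (by simp), zip_ofFn]
  have htriv : ∀ (s : Fin N → Fin n) (l : ℕ) (K : Word l),
      ({ε : Fin N → Bool | Agree (2 * k) (List.ofFn fun t => (s t, ε t)) K}.ncard : ℝ) ≤ 2 ^ N := by
    intro s l K
    have h1 : {ε : Fin N → Bool | Agree (2 * k) (List.ofFn fun t => (s t, ε t)) K}.ncard ≤
        2 ^ N := by
      refine (Set.ncard_le_ncard (Set.subset_univ _) (Set.toFinite _)).trans (le_of_eq ?_)
      rw [Set.ncard_univ, Nat.card_eq_fintype_card]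
      simp
    exact_mod_cast h1
  obtain ⟨N', M, hNM, hN'⟩ : ∃ N' M : ℕ, N = N' + M * L ∧ N' < L :=
    ⟨N % L, N / L, by rw [mul_comm]; exact (Nat.mod_add_div N L).symm, Nat.mod_lt _ hL1⟩
  obtain ⟨i, hi⟩ : ∃ i : Fin n, i = ⟨0, by omega⟩ := ⟨_, rfl⟩
  obtain ⟨j, hj⟩ : ∃ j : Fin n, j = ⟨1, by omega⟩ := ⟨_, rfl⟩
  have hij : i.val + 1 = j.val ∨ j.val + 1 = i.val := by
    left
    rw [hi, hj]
  rcases Nat.eq_zero_or_pos M with hM | hM
  · -- short words
    have hempty : {s : Fin N → Fin n |
        SIsKnot (List.ofFn fun t => ((s t, none) : Fin n × Option Bool)) ∧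
        ∃ (l : ℕ) (K : Word l), ((Real.sqrt (8 * L * Q)) ^ k * C0 + (Real.sqrt L) ^ k) * 2 ^ N <
        ({ε : Fin N → Bool | Agree (2 * k) (List.ofFn fun t => (s t, ε t)) K}.ncard : ℝ) *
          (Real.sqrt N) ^ k} = ∅ := by
      ext s
      simp only [Set.mem_ofPred_eq, Set.mem_empty_iff_false, iff_false]
      rintro ⟨-, l, K, hlt⟩
      have h1 := htriv s l K
      have h2 : (Real.sqrt N) ^ k ≤ (Real.sqrt L) ^ k := by
        refine pow_le_pow_left₀ (Real.sqrt_nonneg _) (Real.sqrt_le_sqrt ?_) k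
        have : N ≤ L := by rw [hNM, hM]; omega
        exact_mod_cast this
      have h3 : ({ε : Fin N → Bool |
          Agree (2 * k) (List.ofFn fun t => (s t, ε t)) K}.ncard : ℝ) * (Real.sqrt N) ^ k ≤
          2 ^ N * (Real.sqrt L) ^ k := mul_le_mul h1 h2 (by positivity) (by positivity)
      have h4 : 0 ≤ (Real.sqrt (8 * L * Q)) ^ k * C0 * 2 ^ N := by positivity
      nlinarith
    rw [hempty, Set.ncard_empty, Nat.cast_zero]
    positivity
  · -- long words: the bad shadows have few copies
    have hbad : ∀ s : Fin N → Fin n,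
        (SIsKnot (List.ofFn fun t => ((s t, none) : Fin n × Option Bool)) ∧
        ∃ (l : ℕ) (K : Word l), ((Real.sqrt (8 * L * Q)) ^ k * C0 + (Real.sqrt L) ^ k) * 2 ^ N <
        ({ε : Fin N → Bool | Agree (2 * k) (List.ofFn fun t => (s t, ε t)) K}.ncard : ℝ) *
          (Real.sqrt N) ^ k) →
        ∀ (w : Fin N' → Fin n) (ω : Fin M → Fin L → Fin n),
          List.ofFn s = List.ofFn w ++ (List.ofFn fun m => List.ofFn (ω m)).flatten →
          (cnt (κ := κ) i j ω : ℝ) ≤ M / (4 * Q) := by
      rintro s ⟨hs, l, K, hlt⟩ w ω hw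
      by_contra hcon
      push Not at hcon
      have hm1 : 1 ≤ cnt (κ := κ) i j ω := by
        have h1 : (0 : ℝ) < cnt (κ := κ) i j ω := lt_of_le_of_lt (by positivity) hcon
        have h2 : 0 < cnt (κ := κ) i j ω := by exact_mod_cast h1
        exact h2
      have e : (List.ofFn fun t => ((s t, none) : Fin n × Option Bool)) =
          (List.ofFn w).map (fun a => ((a, none) : Fin n × Option Bool)) ++
            (List.ofFn fun m => List.ofFn (ω m)).flatten.map
              fun a => ((a, none) : Fin n × Option Bool) := by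
        rw [← List.map_append, ← hw, List.map_ofFn]
        rfl
      have hhas : Has κ (cnt (κ := κ) i j ω)
          (List.ofFn fun t => ((s t, none) : Fin n × Option Bool)) := by
        rw [e]
        exact has_count i j hij _ _
      have hd : doublePoints (List.ofFn fun t => ((s t, none) : Fin n × Option Bool)) = N := by
        have e' : (List.ofFn fun t => ((s t, none) : Fin n × Option Bool)) =
            (List.ofFn s).map fun a => (a, none) := by
          rw [List.map_ofFn]
          rfl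
        rw [e', dp_pat, List.length_ofFn]
      have h1 := hC0 n _ hs (cnt (κ := κ) i j ω) hm1 hhas l K
      rw [← hone s l K, hd] at h1
      have hN : (N : ℝ) ≤ 8 * L * Q * cnt (κ := κ) i j ω := by
        have h2 : (N : ℝ) ≤ 2 * L * M := by
          have : N ≤ 2 * L * M := by
            rw [hNM]
            nlinarith
          exact_mod_cast this
        have h3 : (M : ℝ) ≤ 4 * Q * cnt (κ := κ) i j ω := by
          rw [div_lt_iff₀ (by positivity)] at hcon
          linarith
        calc (N : ℝ) ≤ 2 * L * M := h2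
          _ ≤ 2 * L * (4 * Q * cnt (κ := κ) i j ω) :=
              mul_le_mul_of_nonneg_left h3 (by positivity)
          _ = _ := by ring
      have h4 : (Real.sqrt N) ^ k ≤
          (Real.sqrt (8 * L * Q)) ^ k * (Real.sqrt (cnt (κ := κ) i j ω)) ^ k := by
        rw [← mul_pow, ← Real.sqrt_mul (by positivity)]
        exact pow_le_pow_left₀ (Real.sqrt_nonneg _) (Real.sqrt_le_sqrt hN) k
      have h5 : ({ε : Fin N → Bool |
          Agree (2 * k) (List.ofFn fun t => (s t, ε t)) K}.ncard : ℝ) * (Real.sqrt N) ^ k ≤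
          (Real.sqrt (8 * L * Q)) ^ k * (C0 * 2 ^ N) := by
        calc _ ≤ ({ε : Fin N → Bool |
              Agree (2 * k) (List.ofFn fun t => (s t, ε t)) K}.ncard : ℝ) *
              ((Real.sqrt (8 * L * Q)) ^ k * (Real.sqrt (cnt (κ := κ) i j ω)) ^ k) :=
              mul_le_mul_of_nonneg_left h4 (by positivity)
          _ = (Real.sqrt (8 * L * Q)) ^ k * (({ε : Fin N → Bool |
              Agree (2 * k) (List.ofFn fun t => (s t, ε t)) K}.ncard : ℝ) *
              (Real.sqrt (cnt (κ := κ) i j ω)) ^ k) := by ring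
          _ ≤ _ := mul_le_mul_of_nonneg_left h1 (by positivity)
      have h6 : 0 < (Real.sqrt L) ^ k * 2 ^ N := by positivity
      nlinarith
    have hcount : {s : Fin N → Fin n |
        SIsKnot (List.ofFn fun t => ((s t, none) : Fin n × Option Bool)) ∧
        ∃ (l : ℕ) (K : Word l), ((Real.sqrt (8 * L * Q)) ^ k * C0 + (Real.sqrt L) ^ k) * 2 ^ N <
        ({ε : Fin N → Bool | Agree (2 * k) (List.ofFn fun t => (s t, ε t)) K}.ncard : ℝ) *
          (Real.sqrt N) ^ k}.ncard ≤ ((Finset.univ : Finset ((Fin N' → Fin n) ×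
            (Fin M → Fin L → Fin n))).filter fun q =>
              (cnt (κ := κ) i j q.2 : ℝ) ≤ M / (4 * Q)).card := by
      subst hNM
      rw [← Set.ncard_image_of_injective _ (splitEquiv (Fin n) N' M L).symm.injective,
        ← Set.ncard_coe_finset]
      refine Set.ncard_le_ncard ?_ (Set.toFinite _)
      rintro _ ⟨s, hs, rfl⟩
      simp only [Finset.coe_filter, Finset.mem_univ, true_and, Set.mem_ofPred_eq]
      obtain ⟨q, hq⟩ := (splitEquiv (Fin n) N' M L).surjective s
      have h1 := hbad s hs q.1 q.2 (by rw [← hq]; exact split_ofFn N' M L q.1 q.2)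
      rw [← hq, Equiv.symm_apply_apply]
      exact h1
    have hfew := few (κ := κ) (by omega : 1 ≤ n) i j M Q hQ
    rw [← hL] at hfew
    have hprod : (((Finset.univ : Finset ((Fin N' → Fin n) ×
        (Fin M → Fin L → Fin n))).filter fun q =>
          (cnt (κ := κ) i j q.2 : ℝ) ≤ M / (4 * Q)).card : ℝ) =
        (n : ℝ) ^ N' * (((Finset.univ.filter fun ω : Fin M → Fin L → Fin n =>
          (cnt (κ := κ) i j ω : ℝ) ≤ M / (4 * Q)).card : ℕ) : ℝ) := by
      rw [Finset.card_filter, Fintype.sum_prod_type]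
      push_cast
      rw [Finset.sum_const, Finset.card_univ, nsmul_eq_mul, Finset.card_filter]
      push_cast
      simp
    calc _ ≤ (((Finset.univ : Finset ((Fin N' → Fin n) ×
        (Fin M → Fin L → Fin n))).filter fun q =>
          (cnt (κ := κ) i j q.2 : ℝ) ≤ M / (4 * Q)).card : ℝ) := by exact_mod_cast hcount
      _ ≤ (n : ℝ) ^ N' * (Q ^ M * Real.exp (-(M / (4 * Q)))) := by
          rw [hprod]
          exact mul_le_mul_of_nonneg_left hfew (by positivity)
      _ = Real.exp (-(M / (4 * Q))) * (n : ℝ) ^ N := by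
          rw [hQ, ← pow_mul, hNM, pow_add, hL, mul_comm M (plen κ)]
          ring
      _ ≤ Real.exp (-(1 / (8 * L * Q) * N)) * (n : ℝ) ^ N := by
          refine mul_le_mul_of_nonneg_right (Real.exp_le_exp.2 ?_) (by positivity)
          rw [neg_le_neg_iff]
          have h2 : (N : ℝ) ≤ 2 * L * M := by
            have : N ≤ 2 * L * M := by
              rw [hNM]
              nlinarith
            exact_mod_cast this
          rw [div_mul_eq_mul_div, one_mul, div_le_div_iff₀ (by positivity) (by positivity)]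
          have h3 : (N : ℝ) * (4 * Q) ≤ 2 * L * M * (4 * Q) :=
            mul_le_mul_of_nonneg_right h2 (by positivity)
          linarith

end Pool.Agent.Helper29.RD
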